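import Pool.Agent.Helper21.TNB.Basic

/-!
# Sums of powers of norms of coordinates: Fatou's lemma and the Brezis-Lieb lemma along an
ultrafilter
-/

open Filter Topology

namespace TNB

variable {E : ℕ → Type*} [∀ n, NormedAddCommGroup (E n)]

/-- the sum of the `s`-th powers of the norms of the coordinates -/
noncomputable def Phi (s : ℝ) (v : (n : ℕ) → E n) : ℝ := ∑' n, ‖v n‖ ^ s

/-- the sum converges and is at most `M` -/
def Le (s M : ℝ) (v : (n : ℕ) → E n) : Prop := (Summable fun n => ‖v n‖ ^ s) ∧ Phi s v ≤ M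

theorem Phi_nonneg (s : ℝ) (v : (n : ℕ) → E n) : 0 ≤ Phi s v :=
  tsum_nonneg fun n => by positivity

theorem Le.of_fin {s M : ℝ} {v : (n : ℕ) → E n}
    (h : ∀ F : Finset ℕ, ∑ n ∈ F, ‖v n‖ ^ s ≤ M) : Le s M v :=
  ⟨summable_of_sum_le (fun n => by positivity) h,
    Real.tsum_le_of_sum_le (fun n => by positivity) h⟩

theorem Le.fin {s M : ℝ} {v : (n : ℕ) → E n} (h : Le s M v) (F : Finset ℕ) :
    ∑ n ∈ F, ‖v n‖ ^ s ≤ M :=
  (h.1.sum_le_tsum F fun n _ => by positivity).trans h.2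

theorem Le.one {s M : ℝ} {v : (n : ℕ) → E n} (h : Le s M v) (n : ℕ) : ‖v n‖ ^ s ≤ M := by
  simpa using h.fin {n}

theorem Le.nonneg {s M : ℝ} {v : (n : ℕ) → E n} (h : Le s M v) : 0 ≤ M :=
  (Phi_nonneg s v).trans h.2

theorem Le.mono {s M N : ℝ} {v : (n : ℕ) → E n} (h : Le s M v) (hMN : M ≤ N) : Le s N v :=
  ⟨h.1, h.2.trans hMN⟩

theorem add_rpow_le {s a b : ℝ} (hs : 0 < s) (ha : 0 ≤ a) (hb : 0 ≤ b) :
    (a + b) ^ s ≤ 2 ^ s * (a ^ s + b ^ s) := by
  rcases le_total a b with h | h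
  · calc (a + b) ^ s ≤ (2 * b) ^ s := by
          apply Real.rpow_le_rpow (by positivity) (by linarith) hs.le
      _ = 2 ^ s * b ^ s := by rw [Real.mul_rpow (by norm_num) hb]
      _ ≤ 2 ^ s * (a ^ s + b ^ s) := by
          have : 0 ≤ a ^ s := by positivity
          gcongr
          linarith
  · calc (a + b) ^ s ≤ (2 * a) ^ s := by
          apply Real.rpow_le_rpow (by positivity) (by linarith) hs.le
      _ = 2 ^ s * a ^ s := by rw [Real.mul_rpow (by norm_num) ha]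
      _ ≤ 2 ^ s * (a ^ s + b ^ s) := by
          have : 0 ≤ b ^ s := by positivity
          gcongr
          linarith

theorem Le.add {s M N : ℝ} (hs : 0 < s) {v w : (n : ℕ) → E n} (hv : Le s M v) (hw : Le s N w) :
    Le s (2 ^ s * (M + N)) (v + w) := by
  apply Le.of_fin
  intro F
  calc ∑ n ∈ F, ‖(v + w) n‖ ^ s ≤ ∑ n ∈ F, 2 ^ s * (‖v n‖ ^ s + ‖w n‖ ^ s) := by
        apply Finset.sum_le_sum
        intro n _
        refine le_trans ?_ (add_rpow_le hs (norm_nonneg _) (norm_nonneg _))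
        exact Real.rpow_le_rpow (norm_nonneg _) (norm_add_le _ _) hs.le
    _ = 2 ^ s * (∑ n ∈ F, ‖v n‖ ^ s + ∑ n ∈ F, ‖w n‖ ^ s) := by
        rw [← Finset.mul_sum, Finset.sum_add_distrib]
    _ ≤ 2 ^ s * (M + N) := by
        have := hv.fin F
        have := hw.fin F
        gcongr

theorem Le.neg {s M : ℝ} {v : (n : ℕ) → E n} (hv : Le s M v) : Le s M (-v) := by
  apply Le.of_fin
  intro F
  simpa using hv.fin F

theorem Le.sub {s M N : ℝ} (hs : 0 < s) {v w : (n : ℕ) → E n} (hv : Le s M v) (hw : Le s N w) :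
    Le s (2 ^ s * (M + N)) (v - w) := by
  rw [sub_eq_add_neg]
  exact hv.add hs hw.neg

theorem Phi_neg (s : ℝ) (v : (n : ℕ) → E n) : Phi s (-v) = Phi s v := by
  simp [Phi]

theorem Phi_zero {s : ℝ} (hs : 0 < s) : Phi s (0 : (n : ℕ) → E n) = 0 := by
  simp [Phi, Real.zero_rpow hs.ne']

/-- coordinatewise limit along the ultrafilter -/
noncomputable def vl (v : ℕ → (n : ℕ) → E n) : (n : ℕ) → E n := fun n => L fun t => v t n

theorem coord_bd {s M : ℝ} (hs : 0 < s) {v : ℕ → (n : ℕ) → E n} (hv : ∀ t, Le s M (v t))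
    (n : ℕ) : Bd fun t => v t n := by
  refine ⟨M ^ (1 / s), fun t => ?_⟩
  have h1 := (hv t).one n
  calc ‖v t n‖ = (‖v t n‖ ^ s) ^ (1 / s) := by
        rw [← Real.rpow_mul (norm_nonneg _), mul_one_div_cancel hs.ne', Real.rpow_one]
    _ ≤ M ^ (1 / s) := Real.rpow_le_rpow (by positivity) h1 (by positivity)

theorem vl_tendsto [∀ n, ProperSpace (E n)] {s M : ℝ} (hs : 0 < s) {v : ℕ → (n : ℕ) → E n}
    (hv : ∀ t, Le s M (v t)) (n : ℕ) : Tendsto (fun t => v t n) U (𝓝 (vl v n)) :=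
  L_tendsto (coord_bd hs hv n)

theorem fin_tendsto {s : ℝ} (hs : 0 < s) {v : ℕ → (n : ℕ) → E n} {w : (n : ℕ) → E n}
    (hlim : ∀ n, Tendsto (fun t => v t n) U (𝓝 (w n))) (F : Finset ℕ) :
    Tendsto (fun t => ∑ n ∈ F, ‖v t n‖ ^ s) U (𝓝 (∑ n ∈ F, ‖w n‖ ^ s)) := by
  apply tendsto_finsetSum
  intro n _
  exact (hlim n).norm.rpow_const (Or.inr hs.le)

theorem vl_Le [∀ n, ProperSpace (E n)] {s M : ℝ} (hs : 0 < s) {v : ℕ → (n : ℕ) → E n}
    (hv : ∀ t, Le s M (v t)) : Le s M (vl v) := by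
  apply Le.of_fin
  intro F
  exact le_of_tendsto' (fin_tendsto hs (vl_tendsto hs hv) F) fun t => (hv t).fin F

theorem Phi_bd {s M : ℝ} {v : ℕ → (n : ℕ) → E n} (hv : ∀ t, Le s M (v t)) :
    Bd fun t => Phi s (v t) :=
  Bd.of_mem (B := M) fun t => ⟨Phi_nonneg _ _, (hv t).2⟩

theorem fatou {s M : ℝ} (hs : 0 < s) {v : ℕ → (n : ℕ) → E n} (hv : ∀ t, Le s M (v t))
    {w : (n : ℕ) → E n} (hlim : ∀ n, Tendsto (fun t => v t n) U (𝓝 (w n))) :
    Phi s w ≤ L fun t => Phi s (v t) := by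
  apply Real.tsum_le_of_sum_le (fun n => by positivity)
  intro F
  refine le_of_tendsto_of_tendsto' (fin_tendsto hs hlim F) (L_tendsto (Phi_bd hv)) fun t => ?_
  exact (hv t).1.sum_le_tsum F fun n _ => by positivity

/-- for every `ε > 0` there is `C` with `(b + a)^s ≤ (1 + ε) b^s + C a^s` -/
theorem split_rpow {s ε : ℝ} (hs : 0 < s) (hε : 0 < ε) :
    ∃ C : ℝ, 0 ≤ C ∧ ∀ a b : ℝ, 0 ≤ a → 0 ≤ b →
      (b + a) ^ s ≤ (1 + ε) * b ^ s + C * a ^ s := by
  have hcont : Tendsto (fun δ : ℝ => (1 + δ) ^ s) (𝓝[>] 0) (𝓝 ((1 + 0) ^ s)) := by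
    apply Tendsto.mono_left _ nhdsWithin_le_nhds
    apply Tendsto.rpow_const _ (Or.inr hs.le)
    exact (continuous_const.add continuous_id).tendsto 0
  rw [add_zero, Real.one_rpow] at hcont
  have h1 : ∀ᶠ δ : ℝ in 𝓝[>] 0, (1 + δ) ^ s < 1 + ε :=
    hcont.eventually (gt_mem_nhds (by linarith))
  have h2 : ∀ᶠ δ : ℝ in 𝓝[>] 0, 0 < δ := self_mem_nhdsWithin
  obtain ⟨δ, h1, h2⟩ := (h1.and h2).exists
  refine ⟨(1 / δ + 1) ^ s, by positivity, fun a b ha hb => ?_⟩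
  rcases le_total a (δ * b) with h | h
  · have : (b + a) ^ s ≤ (1 + ε) * b ^ s := by
      calc (b + a) ^ s ≤ ((1 + δ) * b) ^ s := by
            apply Real.rpow_le_rpow (by positivity) (by linarith) hs.le
        _ = (1 + δ) ^ s * b ^ s := by rw [Real.mul_rpow (by positivity) hb]
        _ ≤ (1 + ε) * b ^ s := by gcongr
    have h3 : 0 ≤ (1 / δ + 1) ^ s * a ^ s := by positivity
    linarith
  · have : (b + a) ^ s ≤ (1 / δ + 1) ^ s * a ^ s := by
      calc (b + a) ^ s ≤ ((1 / δ + 1) * a) ^ s := by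
            apply Real.rpow_le_rpow (by positivity) _ hs.le
            have : b ≤ 1 / δ * a := by
              rw [div_mul_eq_mul_div, one_mul, le_div_iff₀ h2]
              linarith
            linarith
        _ = (1 / δ + 1) ^ s * a ^ s := by rw [Real.mul_rpow (by positivity) ha]
    have h3 : 0 ≤ (1 + ε) * b ^ s := by positivity
    linarith

theorem brezis_lieb {s M N : ℝ} (hs : 0 < s) {w : (n : ℕ) → E n} (hw : Le s M w)
    {v : ℕ → (n : ℕ) → E n} (hv : ∀ t, Le s N (v t))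
    (h0 : ∀ n, Tendsto (fun t => v t n) U (𝓝 0)) :
    Tendsto (fun t => Phi s (w + v t) - Phi s (v t) - Phi s w) U (𝓝 0) := by
  have hwv : ∀ t, Le s (2 ^ s * (M + N)) (w + v t) := fun t => hw.add hs (hv t)
  have hMN : 0 ≤ N + 2 ^ s * (M + N) := add_nonneg (hv 0).nonneg (hwv 0).nonneg
  rw [Metric.tendsto_nhds]
  intro δ hδ
  set ε : ℝ := δ / 2 / (N + 2 ^ s * (M + N) + 1) with hεdef
  have hε : 0 < ε := by positivity
  have hεM : ε * (N + 2 ^ s * (M + N)) < δ / 2 := by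
    rw [hεdef, div_mul_eq_mul_div, div_lt_iff₀ (by linarith)]
    nlinarith
  obtain ⟨C, hC, hsplit⟩ := split_rpow hs hε
  set z : ℕ → ℕ → ℝ := fun t n => max (|‖w n + v t n‖ ^ s - ‖v t n‖ ^ s - ‖w n‖ ^ s|
    - ε * (‖v t n‖ ^ s + ‖w n + v t n‖ ^ s)) 0 with hz
  have hz0 : ∀ t n, 0 ≤ z t n := fun t n => le_max_right _ _
  have hzb : ∀ t n, z t n ≤ (C + 1) * ‖w n‖ ^ s := by
    intro t n
    apply max_le
    · have a1 : ‖w n + v t n‖ ^ s ≤ (1 + ε) * ‖v t n‖ ^ s + C * ‖w n‖ ^ s := by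
        refine le_trans ?_ (hsplit ‖w n‖ ‖v t n‖ (norm_nonneg _) (norm_nonneg _))
        apply Real.rpow_le_rpow (norm_nonneg _) _ hs.le
        rw [add_comm (‖v t n‖)]
        exact norm_add_le _ _
      have a2 : ‖v t n‖ ^ s ≤ (1 + ε) * ‖w n + v t n‖ ^ s + C * ‖w n‖ ^ s := by
        refine le_trans ?_ (hsplit ‖w n‖ ‖w n + v t n‖ (norm_nonneg _) (norm_nonneg _))
        apply Real.rpow_le_rpow (norm_nonneg _) _ hs.le
        calc ‖v t n‖ = ‖(w n + v t n) - w n‖ := by rw [add_sub_cancel_left]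
          _ ≤ _ := norm_sub_le _ _
      have p1 : 0 ≤ ‖w n‖ ^ s := by positivity
      have p2 : 0 ≤ ‖v t n‖ ^ s := by positivity
      have p3 : 0 ≤ ‖w n + v t n‖ ^ s := by positivity
      have p4 : 0 ≤ ε * ‖v t n‖ ^ s := by positivity
      have p5 : 0 ≤ ε * ‖w n + v t n‖ ^ s := by positivity
      rw [sub_le_iff_le_add, abs_le]
      constructor <;> nlinarith
    · positivity
  have hzs : ∀ t, Summable (z t) := fun t =>
    Summable.of_nonneg_of_le (hz0 t) (hzb t) (hw.1.mul_left (C + 1))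
  have hzlim : ∀ n, Tendsto (fun t => z t n) U (𝓝 0) := by
    intro n
    have t1 : Tendsto (fun t => ‖v t n‖ ^ s) U (𝓝 0) := by
      have := (h0 n).norm.rpow_const (p := s) (Or.inr hs.le)
      simpa [Real.zero_rpow hs.ne'] using this
    have t2 : Tendsto (fun t => ‖w n + v t n‖ ^ s) U (𝓝 (‖w n‖ ^ s)) := by
      have := ((tendsto_const_nhds (x := w n)).add (h0 n)).norm.rpow_const (p := s) (Or.inr hs.le)
      simpa using this
    have t3 : Tendsto (fun t => z t n) U (𝓝 (max (|‖w n‖ ^ s - 0 - ‖w n‖ ^ s|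
        - ε * (0 + ‖w n‖ ^ s)) 0)) :=
      ((((t2.sub t1).sub tendsto_const_nhds).abs).sub
        ((t1.add t2).const_mul ε)).max tendsto_const_nhds
    have t4 : max (|‖w n‖ ^ s - 0 - ‖w n‖ ^ s| - ε * (0 + ‖w n‖ ^ s)) 0 = 0 := by
      have p1 : 0 ≤ ε * ‖w n‖ ^ s := by positivity
      rw [sub_zero, sub_self, abs_zero, zero_add, zero_sub]
      exact max_eq_right (by linarith)
    rwa [t4] at t3
  have hzsum : Tendsto (fun t => ∑' n, z t n) U (𝓝 0) := by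
    have := tendsto_tsum_of_dominated_convergence (f := z) (g := fun _ => (0 : ℝ))
      (bound := fun n => (C + 1) * ‖w n‖ ^ s) (𝓕 := U) (hw.1.mul_left (C + 1)) hzlim
      (Filter.Eventually.of_forall fun t n => by
        rw [Real.norm_eq_abs, abs_of_nonneg (hz0 t n)]; exact hzb t n)
    simpa using this
  have hev : ∀ᶠ t in U, ∑' n, z t n < δ / 2 := hzsum.eventually (gt_mem_nhds (by positivity))
  filter_upwards [hev] with t ht
  rw [Real.dist_eq, sub_zero]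
  have hA := (hwv t).1
  have hB := (hv t).1
  have hD := hw.1
  have e1 : Phi s (w + v t) - Phi s (v t) - Phi s w
      = ∑' n, (‖(w + v t) n‖ ^ s - ‖v t n‖ ^ s - ‖w n‖ ^ s) := by
    rw [(hA.sub hB).tsum_sub hD, hA.tsum_sub hB]
    rfl
  have e2 : HasSum (fun n => ε * (‖v t n‖ ^ s + ‖(w + v t) n‖ ^ s) + z t n)
      (ε * (Phi s (v t) + Phi s (w + v t)) + ∑' n, z t n) :=
    ((hB.hasSum.add hA.hasSum).mul_left ε).add (hzs t).hasSum
  have e3 : ∀ n, ‖(‖(w + v t) n‖ ^ s - ‖v t n‖ ^ s - ‖w n‖ ^ s)‖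
      ≤ ε * (‖v t n‖ ^ s + ‖(w + v t) n‖ ^ s) + z t n := by
    intro n
    rw [Real.norm_eq_abs]
    have : |‖w n + v t n‖ ^ s - ‖v t n‖ ^ s - ‖w n‖ ^ s|
      - ε * (‖v t n‖ ^ s + ‖w n + v t n‖ ^ s) ≤ z t n := le_max_left _ _
    have e4 : (w + v t) n = w n + v t n := rfl
    rw [e4]
    linarith
  rw [e1, ← Real.norm_eq_abs]
  refine (tsum_of_norm_bounded e2 e3).trans_lt ?_
  have e5 : ε * (Phi s (v t) + Phi s (w + v t)) ≤ ε * (N + 2 ^ s * (M + N)) := by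
    have := (hv t).2
    have := (hwv t).2
    gcongr
  linarith

end TNB
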