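import Mathlib

/-!
# Limits along a nonprincipal ultrafilter on `ℕ`
-/

open Filter Topology

namespace TNB

/-- a nonprincipal ultrafilter on `ℕ` -/
noncomputable abbrev U : Filter ℕ := (hyperfilter ℕ : Filter ℕ)

/-- limit along the ultrafilter -/
noncomputable def L {V : Type*} [TopologicalSpace V] [Nonempty V] (h : ℕ → V) : V :=
  limUnder U h

/-- boundedness in norm -/
def Bd {V : Type*} [NormedAddCommGroup V] (h : ℕ → V) : Prop := ∃ B : ℝ, ∀ t, ‖h t‖ ≤ B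

theorem L_tendsto {V : Type*} [NormedAddCommGroup V] [ProperSpace V] {h : ℕ → V}
    (hb : Bd h) : Tendsto h U (𝓝 (L h)) := by
  obtain ⟨B, hB⟩ := hb
  have hc : IsCompact (Metric.closedBall (0 : V) B) := isCompact_closedBall 0 B
  have hm : ((hyperfilter ℕ).map h : Filter V) ≤ 𝓟 (Metric.closedBall (0 : V) B) := by
    rw [Filter.le_principal_iff]
    change h ⁻¹' _ ∈ (hyperfilter ℕ : Filter ℕ)
    refine Filter.mem_of_superset Filter.univ_mem ?_
    intro t _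
    simpa using hB t
  obtain ⟨x, -, hlim⟩ := hc.ultrafilter_le_nhds _ hm
  have h1 : Tendsto h U (𝓝 x) := hlim
  have h2 : L h = x := h1.limUnder_eq
  rw [h2]
  exact h1

theorem L_eq {V : Type*} [TopologicalSpace V] [T2Space V] [Nonempty V] {h : ℕ → V} {x : V}
    (h1 : Tendsto h U (𝓝 x)) : L h = x := h1.limUnder_eq

theorem L_const {V : Type*} [TopologicalSpace V] [T2Space V] [Nonempty V] (x : V) :
    L (fun _ => x) = x := L_eq tendsto_const_nhds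

theorem Bd.add {h g : ℕ → ℝ} (hh : Bd h) (hg : Bd g) : Bd (fun t => h t + g t) := by
  obtain ⟨A, hA⟩ := hh
  obtain ⟨B, hB⟩ := hg
  exact ⟨A + B, fun t => (norm_add_le _ _).trans (add_le_add (hA t) (hB t))⟩

theorem L_add {h g : ℕ → ℝ} (hh : Bd h) (hg : Bd g) :
    L (fun t => h t + g t) = L h + L g :=
  L_eq ((L_tendsto hh).add (L_tendsto hg))

theorem L_mono {h g : ℕ → ℝ} (hh : Bd h) (hg : Bd g) (hle : ∀ t, h t ≤ g t) : L h ≤ L g :=
  le_of_tendsto_of_tendsto' (L_tendsto hh) (L_tendsto hg) hle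

theorem L_mem {h : ℕ → ℝ} (hh : Bd h) {A : Set ℝ} (hA : IsClosed A)
    (hm : ∀ᶠ t in U, h t ∈ A) : L h ∈ A :=
  hA.mem_of_tendsto (L_tendsto hh) hm

theorem Bd.of_mem {h : ℕ → ℝ} {B : ℝ} (hh : ∀ t, 0 ≤ h t ∧ h t ≤ B) : Bd h :=
  ⟨B, fun t => by rw [Real.norm_eq_abs, abs_of_nonneg (hh t).1]; exact (hh t).2⟩

theorem L_range {h : ℕ → ℝ} {B : ℝ} (hh : ∀ t, 0 ≤ h t ∧ h t ≤ B) : 0 ≤ L h ∧ L h ≤ B :=
  L_mem (Bd.of_mem hh) (A := Set.Icc 0 B) isClosed_Icc (Filter.Eventually.of_forall hh)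

theorem L_rpow {h : ℕ → ℝ} (hh : Bd h) {r : ℝ} (hr : 0 ≤ r) :
    L (fun t => h t ^ r) = L h ^ r :=
  L_eq ((L_tendsto hh).rpow_const (Or.inr hr))

end TNB
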