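import Pool.Agent.Helper21.TNB.Main

/-!
# Flat differences of maps defined on the sphere of a Hilbert space
-/

open Filter Topology
open scoped RealInnerProductSpace

namespace TNB

variable {V : Type*} [NormedAddCommGroup V] [InnerProductSpace ℝ V]

/-- an infinite-dimensional inner product space contains an orthonormal sequence -/
theorem exists_orthonormal_seq (hV : ¬ FiniteDimensional ℝ V) : ∃ e : ℕ → V, Orthonormal ℝ e := by
  have hb := Module.Basis.ofVectorSpace ℝ V
  have hinf : Infinite (Module.Basis.ofVectorSpaceIndex ℝ V) := by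
    rw [← not_finite_iff_infinite]
    intro hfin
    exact hV (Module.Finite.of_basis (Module.Basis.ofVectorSpace ℝ V))
  let ι := Module.Basis.ofVectorSpaceIndex ℝ V
  let b : Module.Basis ι ℝ V := Module.Basis.ofVectorSpace ℝ V
  let g : ℕ ↪ ι := Infinite.natEmbedding ι
  have h1 : LinearIndependent ℝ (fun n => b (g n)) := b.linearIndependent.comp g g.injective
  exact ⟨_, InnerProductSpace.gramSchmidtNormed_orthonormal h1⟩

section

variable {X : Type*} [NormedAddCommGroup X] [NormedSpace ℝ X]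
  {E : ℕ → Type*} [∀ n, NormedAddCommGroup (E n)] [∀ n, NormedSpace ℝ (E n)]

theorem LeT {T : (n : ℕ) → X →ₗ[ℝ] E n} {q C b : ℝ} (hq : 0 < q) (hC : 0 ≤ C)
    (hT : ∀ (v : X) (F : Finset ℕ), (∑ n ∈ F, ‖T n v‖ ^ q) ^ (1 / q) ≤ C * ‖v‖)
    {v : X} (hv : ‖v‖ ≤ b) : Le q ((C * b) ^ q) fun n => T n v := by
  apply Le.of_fin
  intro F
  have h0 : 0 ≤ ∑ n ∈ F, ‖T n v‖ ^ q := Finset.sum_nonneg fun n _ => by positivity
  calc ∑ n ∈ F, ‖T n v‖ ^ q = ((∑ n ∈ F, ‖T n v‖ ^ q) ^ (1 / q)) ^ q := by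
        rw [← Real.rpow_mul h0, one_div_mul_cancel hq.ne', Real.rpow_one]
    _ ≤ (C * b) ^ q := by
        apply Real.rpow_le_rpow (by positivity) _ hq.le
        exact (hT v F).trans (by gcongr)

theorem flat [∀ n, FiniteDimensional ℝ (E n)] (hV : ¬ FiniteDimensional ℝ V)
    (T : (n : ℕ) → X →ₗ[ℝ] E n) {q r C : ℝ} (hq : 0 < q) (hqr : q < r) (hC : 0 ≤ C)
    (hT : ∀ (v : X) (F : Finset ℕ), (∑ n ∈ F, ‖T n v‖ ^ q) ^ (1 / q) ≤ C * ‖v‖)
    {R t K ε : ℝ} (hR : 0 < R) (ht : 0 < t) (hε : 0 < ε) (f : V → X)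
    (hK : ∀ x y : V, ‖x‖ = R → ‖y‖ = R → ‖x - y‖ ≤ t → ‖f x - f y‖ ≤ K) :
    ∃ x y : V, ‖x‖ = R ∧ ‖y‖ = R ∧ ⟪x, y⟫ = 0 ∧
      (Summable fun n => ‖T n (f x - f y)‖ ^ r) ∧
      (∑' n, ‖T n (f x - f y)‖ ^ r) ^ (1 / r) ≤ 2 ^ (1 / r - 1 / q) * (C * K) + ε := by
  obtain ⟨e, he⟩ := exists_orthonormal_seq hV
  have hprop : ∀ n, ProperSpace (E n) := fun n => FiniteDimensional.proper_real (E n)
  have hr : 0 < r := hq.trans hqr
  have hρ : 1 < r / q := by rw [lt_div_iff₀ hq]; linarith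
  have hK0 : 0 ≤ K := by
    have hn : ‖R • e 0‖ = R := by
      rw [norm_smul, he.1 0, mul_one, Real.norm_eq_abs, abs_of_pos hR]
    have := hK (R • e 0) (R • e 0) hn hn (by simpa using ht.le)
    simpa using this
  by_contra hcon
  push Not at hcon
  set N : ℕ := ⌈R * (Real.pi / 2) / t⌉₊ with hN
  set P : ℝ := N * K with hP
  have hP0 : 0 ≤ P := by positivity
  have hchain : ∀ x y : V, ‖x‖ = R → ‖y‖ = R → ⟪x, y⟫ = 0 → ‖f x - f y‖ ≤ P := by
    intro x y hx hy hxy
    rw [norm_sub_rev]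
    exact chain hR ht hK hx hy hxy
  set Q : ℝ := (C * P) ^ q with hQ
  have hQ0 : 0 ≤ Q := by positivity
  set B : ℝ := (C * K) ^ q with hB
  have hB0 : 0 ≤ B := by positivity
  set c : ℝ := 2 ^ (1 / r - 1 / q) * (C * K) with hc
  have hc0 : 0 ≤ c := by positivity
  have hcB : 2 ^ (1 - r / q) * B ^ (r / q) = c ^ r := by
    have hCK : 0 ≤ C * K := by positivity
    have e1 : B ^ (r / q) = (C * K) ^ r := by
      rw [hB, ← Real.rpow_mul hCK, mul_div_cancel₀ _ hq.ne']
    have e2 : c ^ r = 2 ^ ((1 / r - 1 / q) * r) * (C * K) ^ r := by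
      rw [hc, Real.mul_rpow (by positivity) hCK, ← Real.rpow_mul (by norm_num)]
    rw [e1, e2]
    congr 2
    field_simp
  have hδ : 0 < (c + ε) ^ r - c ^ r := by
    rw [sub_pos]
    exact Real.rpow_lt_rpow hc0 (by linarith) hr
  set δ : ℝ := (c + ε) ^ r - c ^ r with hδdef
  -- the threshold
  set η : ℝ := (δ / (2 * (Q + 1))) ^ (1 / (r / q - 1)) with hη
  have hρ1 : 0 < r / q - 1 := by linarith
  have hη0 : 0 < η := by positivity
  have hηQ : η ^ (r / q - 1) * Q < δ := by
    rw [hη, ← Real.rpow_mul (by positivity), one_div_mul_cancel hρ1.ne', Real.rpow_one,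
      div_mul_eq_mul_div, div_lt_iff₀ (by positivity)]
    nlinarith
  -- the number of coordinates
  set k : ℕ := ⌈R ^ 2 * Q / η / t ^ 2⌉₊ + 1 with hk
  have hkpos : (0 : ℝ) < k := by rw [hk]; positivity
  have hkbig : R ^ 2 * Q / η ≤ t ^ 2 * k := by
    have h1 : R ^ 2 * Q / η / t ^ 2 ≤ (⌈R ^ 2 * Q / η / t ^ 2⌉₊ : ℝ) := Nat.le_ceil _
    rw [div_le_iff₀ (by positivity)] at h1
    have h2 : (k : ℝ) = (⌈R ^ 2 * Q / η / t ^ 2⌉₊ : ℝ) + 1 := by rw [hk]; push_cast; ring
    rw [h2]
    nlinarith [sq_nonneg t]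
  set a : ℝ := R / √k with ha
  have ha2 : a ^ 2 = R ^ 2 / k := by rw [ha, div_pow, Real.sq_sqrt hkpos.le]
  have hnorm : ∀ s : Finset ℕ, s.card = k → ‖pt e a s‖ = R := by
    intro s hs
    have h1 := norm_pt_sq he a s
    rw [hs, ha2, div_mul_cancel₀ _ hkpos.ne'] at h1
    exact (pow_left_inj₀ (norm_nonneg _) hR.le two_ne_zero).1 h1
  have horth : ∀ s s' : Finset ℕ, Disjoint s s' → ⟪pt e a s, pt e a s'⟫ = 0 := by
    intro s s' hss
    rw [inner_pt he, Finset.disjoint_iff_inter_eq_empty.1 hss]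
    simp
  -- the bounded family
  set g : Finset ℕ → (n : ℕ) → E n := fun s => if s.card = k then
    fun n => T n (f (pt e a s) - f (pt e a (Finset.range k))) else 0 with hg
  have hgle : ∀ s, Le q ((C * (2 * P)) ^ q) (g s) := by
    intro s
    by_cases hs : s.card = k
    · simp only [hg, if_pos hs]
      apply LeT hq hC hT
      obtain ⟨D, hDs, hDk⟩ : ∃ D : Finset ℕ, D ⊆ (Finset.range (k + (s ∪ Finset.range k).card))
          \ (s ∪ Finset.range k) ∧ D.card = k := by
        apply Finset.exists_subset_card_eq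
        have := Finset.le_card_sdiff (s ∪ Finset.range k)
          (Finset.range (k + (s ∪ Finset.range k).card))
        rw [Finset.card_range] at this
        omega
      have hD : ∀ i ∈ D, i ∉ s ∧ i ∉ Finset.range k := by
        intro i hi
        have := (Finset.mem_sdiff.1 (hDs hi)).2
        rwa [Finset.mem_union, not_or] at this
      have h1 : Disjoint s D := by
        rw [Finset.disjoint_right]
        exact fun i hi => (hD i hi).1
      have h2 : Disjoint D (Finset.range k) := by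
        rw [Finset.disjoint_left]
        exact fun i hi => (hD i hi).2
      have h3 := hchain _ _ (hnorm s hs) (hnorm D hDk) (horth _ _ h1)
      have h4 := hchain _ _ (hnorm D hDk) (hnorm _ (Finset.card_range k)) (horth _ _ h2)
      calc ‖f (pt e a s) - f (pt e a (Finset.range k))‖
          = ‖(f (pt e a s) - f (pt e a D)) + (f (pt e a D) - f (pt e a (Finset.range k)))‖ := by
            congr 1; abel
        _ ≤ P + P := norm_add_le_of_le h3 h4
        _ = 2 * P := by ring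
    · simp only [hg, if_neg hs]
      apply Le.of_fin
      intro F
      simp only [Pi.zero_apply, norm_zero, Real.zero_rpow hq.ne', Finset.sum_const_zero]
      positivity
  have hgsub : ∀ x y : Finset ℕ, x.card = k → y.card = k →
      g x - g y = fun n => T n (f (pt e a x) - f (pt e a y)) := by
    intro x y hx hy
    funext n
    simp only [hg, if_pos hx, if_pos hy, Pi.sub_apply]
    rw [← map_sub]
    congr 1
    abel
  have key := core (C₁ := (c + ε) ^ r) (k := k) (B := B) (Q := Q) hq hqr hη0 g hgle hB0 ?_ ?_ ?_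
  · rw [hcB] at key
    linarith
  · intro x y hx hy hxy
    rw [hgsub x y hx hy]
    exact (LeT hq hC hT (hchain _ _ (hnorm x hx) (hnorm y hy) (horth _ _ hxy))).2
  · intro x y hx hy hxy hcard
    rw [hgsub x y hx hy]
    refine (LeT hq hC hT (hK _ _ (hnorm x hx) (hnorm y hy) ?_)).2
    have h1 := norm_pt_sub_sq he a x y
    rw [← hxy, ha2] at h1
    refine le_of_sq_le_sq ?_ ht.le
    rw [h1]
    rw [div_mul_eq_mul_div, div_le_iff₀ hkpos]
    refine le_trans ?_ hkbig
    rw [le_div_iff₀ hη0]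
    nlinarith [sq_nonneg R]
  · intro x y hx hy hxy
    rw [hgsub x y hx hy]
    have h1 := LeT hq hC hT (hchain _ _ (hnorm x hx) (hnorm y hy) (horth _ _ hxy))
    have h2 := (Phi_rpow hq hqr.le h1.1).1
    have h3 := hcon _ _ (hnorm x hx) (hnorm y hy) (horth _ _ hxy) h2
    have h4 : 0 ≤ Phi r fun n => T n (f (pt e a x) - f (pt e a y)) := Phi_nonneg _ _
    calc (c + ε) ^ r ≤ ((Phi r fun n => T n (f (pt e a x) - f (pt e a y))) ^ (1 / r)) ^ r :=
          Real.rpow_le_rpow (by positivity) h3.le hr.le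
      _ = Phi r fun n => T n (f (pt e a x) - f (pt e a y)) := by
          rw [← Real.rpow_mul h4, one_div_mul_cancel hr.ne', Real.rpow_one]

end

end TNB
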