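import Pool.Agent.Helper21.TNB.Proc

/-!
# The flatness theorem
-/

open Filter Topology
open scoped RealInnerProductSpace

namespace TNB

/-! ### geometry of the sphere -/

section geometry

variable {V : Type*} [NormedAddCommGroup V] [InnerProductSpace ℝ V]

theorem circle_norm {x y : V} {R : ℝ} (hx : ‖x‖ = R) (hy : ‖y‖ = R) (hxy : ⟪x, y⟫ = 0)
    (a b : ℝ) : ‖a • x + b • y‖ ^ 2 = R ^ 2 * (a ^ 2 + b ^ 2) := by
  rw [norm_add_sq_real, norm_smul, norm_smul, real_inner_smul_left, real_inner_smul_right, hxy,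
    hx, hy, Real.norm_eq_abs, Real.norm_eq_abs, mul_pow, mul_pow, sq_abs, sq_abs]
  ring

/-- a map which is bounded at scale `t` on a sphere is bounded on pairs of orthogonal points -/
theorem chain {X : Type*} [NormedAddCommGroup X] {f : V → X} {R t K : ℝ} (hR : 0 < R)
    (ht : 0 < t) (hK : ∀ x y : V, ‖x‖ = R → ‖y‖ = R → ‖x - y‖ ≤ t → ‖f x - f y‖ ≤ K)
    {x y : V} (hx : ‖x‖ = R) (hy : ‖y‖ = R) (hxy : ⟪x, y⟫ = 0) :
    ‖f y - f x‖ ≤ (⌈R * (Real.pi / 2) / t⌉₊ : ℝ) * K := by
  set N : ℕ := ⌈R * (Real.pi / 2) / t⌉₊ with hN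
  have hNpos : 0 < N := Nat.ceil_pos.2 (by positivity)
  have hNr : (0 : ℝ) < N := by exact_mod_cast hNpos
  set θ : ℕ → ℝ := fun j => j * (Real.pi / 2 / N) with hθ
  set γ : ℕ → V := fun j => Real.cos (θ j) • x + Real.sin (θ j) • y with hγ
  have hsphere : ∀ j, ‖γ j‖ = R := by
    intro j
    have h1 := circle_norm hx hy hxy (Real.cos (θ j)) (Real.sin (θ j))
    rw [Real.cos_sq_add_sin_sq, mul_one] at h1
    exact (pow_left_inj₀ (norm_nonneg _) hR.le two_ne_zero).1 h1
  have hstep : ∀ j, ‖γ (j + 1) - γ j‖ ≤ t := by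
    intro j
    have e1 : γ (j + 1) - γ j = (Real.cos (θ (j + 1)) - Real.cos (θ j)) • x
        + (Real.sin (θ (j + 1)) - Real.sin (θ j)) • y := by
      simp only [hγ, sub_smul]
      abel
    have h1 := circle_norm hx hy hxy (Real.cos (θ (j + 1)) - Real.cos (θ j))
      (Real.sin (θ (j + 1)) - Real.sin (θ j))
    rw [← e1] at h1
    have e2 : (Real.cos (θ (j + 1)) - Real.cos (θ j)) ^ 2
        + (Real.sin (θ (j + 1)) - Real.sin (θ j)) ^ 2 = 2 - 2 * Real.cos (θ (j + 1) - θ j) := by
      rw [Real.cos_sub]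
      nlinarith [Real.cos_sq_add_sin_sq (θ (j + 1)), Real.cos_sq_add_sin_sq (θ j)]
    have e3 : θ (j + 1) - θ j = Real.pi / 2 / N := by
      simp only [hθ]
      push_cast
      ring
    have e4 : 2 - 2 * Real.cos (θ (j + 1) - θ j) ≤ (Real.pi / 2 / N) ^ 2 := by
      rw [e3]
      have := Real.one_sub_sq_div_two_le_cos (x := Real.pi / 2 / N)
      linarith
    have h2 : ‖γ (j + 1) - γ j‖ ^ 2 ≤ (R * (Real.pi / 2 / N)) ^ 2 := by
      rw [h1, e2, mul_pow]
      gcongr
    have h3 : ‖γ (j + 1) - γ j‖ ≤ R * (Real.pi / 2 / N) :=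
      le_of_sq_le_sq h2 (by positivity)
    refine h3.trans ?_
    have h4 : R * (Real.pi / 2) / t ≤ N := Nat.le_ceil _
    rw [div_le_iff₀ ht] at h4
    rw [mul_div_assoc', div_le_iff₀ hNr]
    linarith
  have h0 : γ 0 = x := by simp [hγ, hθ]
  have h1 : γ N = y := by
    have : θ N = Real.pi / 2 := by
      simp only [hθ]
      field_simp
    simp [hγ, this]
  have h2 : f y - f x = ∑ j ∈ Finset.range N, (f (γ (j + 1)) - f (γ j)) := by
    rw [Finset.sum_range_sub (fun j => f (γ j)), h0, h1]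
  rw [h2]
  calc ‖∑ j ∈ Finset.range N, (f (γ (j + 1)) - f (γ j))‖ ≤ ∑ j ∈ Finset.range N, K :=
        norm_sum_le_of_le _ fun j _ => hK _ _ (hsphere _) (hsphere _) (hstep j)
    _ = N * K := by simp

/-- the point of a finite set of indices -/
noncomputable def pt (e : ℕ → V) (a : ℝ) (s : Finset ℕ) : V := a • ∑ i ∈ s, e i

theorem inner_sum_sum {e : ℕ → V} (he : Orthonormal ℝ e) (A B : Finset ℕ) :
    ⟪∑ i ∈ A, e i, ∑ j ∈ B, e j⟫ = ((A ∩ B).card : ℝ) := by
  rw [sum_inner]
  simp_rw [inner_sum, orthonormal_iff_ite.1 he]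
  simp

theorem inner_pt {e : ℕ → V} (he : Orthonormal ℝ e) (a : ℝ) (A B : Finset ℕ) :
    ⟪pt e a A, pt e a B⟫ = a ^ 2 * ((A ∩ B).card : ℝ) := by
  rw [pt, pt, real_inner_smul_left, real_inner_smul_right, inner_sum_sum he]
  ring

theorem norm_pt_sq {e : ℕ → V} (he : Orthonormal ℝ e) (a : ℝ) (A : Finset ℕ) :
    ‖pt e a A‖ ^ 2 = a ^ 2 * (A.card : ℝ) := by
  rw [← real_inner_self_eq_norm_sq, inner_pt he, Finset.inter_self]

theorem norm_pt_sub_sq {e : ℕ → V} (he : Orthonormal ℝ e) (a : ℝ) (A B : Finset ℕ) :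
    ‖pt e a A - pt e a B‖ ^ 2 = a ^ 2 * (((A \ B).card : ℝ) + ((B \ A).card : ℝ)) := by
  rw [norm_sub_sq_real, norm_pt_sq he, norm_pt_sq he, inner_pt he]
  have h1 : (A \ B).card + (A ∩ B).card = A.card := Finset.card_sdiff_add_card_inter A B
  have h2 : (B \ A).card + (A ∩ B).card = B.card := by
    rw [Finset.inter_comm]; exact Finset.card_sdiff_add_card_inter B A
  rw [← h1, ← h2]
  push_cast
  ring

end geometry

/-! ### the game of choosing indices -/

theorem ev_notMem (A : Finset ℕ) : ∀ᶠ t in U, t ∉ A := by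
  have h : ∀ᶠ t in (Filter.cofinite : Filter ℕ), t ∉ A := by
    rw [Filter.eventually_cofinite]
    simp
  exact hyperfilter_le_cofinite h

/-- the relation between two states: both have `k - m` elements and their two differences have
`c` elements -/
def Inv (k m c : ℕ) (x y : Finset ℕ) : Prop :=
  x.card + m = k ∧ y.card + m = k ∧ (x \ y).card = c ∧ (y \ x).card = c

theorem Inv_false (k m c : ℕ) (x y : Finset ℕ) (h : Inv k (m + 1) c x y) :
    ∀ᶠ t in U, Inv k m c (insert t x) (insert t y) := by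
  obtain ⟨h1, h2, h3, h4⟩ := h
  filter_upwards [ev_notMem (x ∪ y)] with t ht
  rw [Finset.mem_union, not_or] at ht
  refine ⟨?_, ?_, ?_, ?_⟩
  · rw [Finset.card_insert_of_notMem ht.1]; omega
  · rw [Finset.card_insert_of_notMem ht.2]; omega
  · rw [← h3]
    congr 1
    ext i
    simp only [Finset.mem_sdiff, Finset.mem_insert]
    by_cases hi : i = t
    · subst hi; tauto
    · tauto
  · rw [← h4]
    congr 1
    ext i
    simp only [Finset.mem_sdiff, Finset.mem_insert]
    by_cases hi : i = t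
    · subst hi; tauto
    · tauto

theorem Inv_true (k m c : ℕ) (x y : Finset ℕ) (h : Inv k (m + 1) c x y) :
    ∀ᶠ t in U, ∀ᶠ t' in U, Inv k m (c + 1) (insert t x) (insert t' y) := by
  obtain ⟨h1, h2, h3, h4⟩ := h
  filter_upwards [ev_notMem (x ∪ y)] with t ht
  filter_upwards [ev_notMem (insert t (x ∪ y))] with t' ht'
  rw [Finset.mem_union, not_or] at ht
  rw [Finset.mem_insert, Finset.mem_union, not_or, not_or] at ht'
  refine ⟨?_, ?_, ?_, ?_⟩
  · rw [Finset.card_insert_of_notMem ht.1]; omega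
  · rw [Finset.card_insert_of_notMem ht'.2.2]; omega
  · have : insert t x \ insert t' y = insert t (x \ y) := by
      ext i
      simp only [Finset.mem_sdiff, Finset.mem_insert]
      by_cases hi : i = t
      · subst hi
        have : i ≠ t' := fun hh => ht'.1 hh.symm
        tauto
      · by_cases hi' : i = t'
        · subst hi'; tauto
        · tauto
    rw [this, Finset.card_insert_of_notMem (by simp [ht.1]), h3]
  · have : insert t' y \ insert t x = insert t' (y \ x) := by
      ext i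
      simp only [Finset.mem_sdiff, Finset.mem_insert]
      by_cases hi : i = t'
      · subst hi; tauto
      · by_cases hi' : i = t
        · subst hi'; tauto
        · tauto
    rw [this, Finset.card_insert_of_notMem (by simp [ht'.2.2]), h4]

/-! ### the estimate for a bounded family indexed by finite sets -/

theorem sum_rpow_le {ι : Type*} (s : Finset ι) (d : ι → ℝ) (hd : ∀ i ∈ s, 0 ≤ d i) {ρ : ℝ}
    (hρ : 1 ≤ ρ) : ∑ i ∈ s, d i ^ ρ ≤ (∑ i ∈ s, d i) ^ ρ := by
  have hρ' : 0 ≤ ρ - 1 := by linarith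
  have hD : 0 ≤ ∑ i ∈ s, d i := Finset.sum_nonneg hd
  calc ∑ i ∈ s, d i ^ ρ ≤ ∑ i ∈ s, (∑ i ∈ s, d i) ^ (ρ - 1) * d i := by
        apply Finset.sum_le_sum
        intro i hi
        have h1 : d i ≤ ∑ i ∈ s, d i := Finset.single_le_sum hd hi
        calc d i ^ ρ = d i ^ ((ρ - 1) + 1) := by ring_nf
          _ = d i ^ (ρ - 1) * d i := by
              rw [Real.rpow_add_of_nonneg (hd i hi) hρ' zero_le_one, Real.rpow_one]
          _ ≤ (∑ i ∈ s, d i) ^ (ρ - 1) * d i := by
              have := hd i hi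
              gcongr
    _ = (∑ i ∈ s, d i) ^ (ρ - 1) * ∑ i ∈ s, d i := by rw [Finset.mul_sum]
    _ = (∑ i ∈ s, d i) ^ ρ := by
        nth_rw 2 [← Real.rpow_one (∑ i ∈ s, d i)]
        rw [← Real.rpow_add_of_nonneg hD hρ' zero_le_one]
        ring_nf

/-- Abstract form: `g` assigns to each `k`-set a vector with coordinates in the `E n`; the
`q`-sums of all differences are at most `Q` for disjoint sets, and at most `B` for sets which
differ in few elements. Then for two disjoint sets the `r`-sum is at most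
`2^(1-r/q) B^(r/q) + η^(r/q-1) Q`, up to an arbitrarily small error. -/
theorem core {E : ℕ → Type*} [∀ n, NormedAddCommGroup (E n)] [∀ n, ProperSpace (E n)]
    {q r M Q B η C₁ : ℝ} {k : ℕ} (hq : 0 < q) (hqr : q < r) (hη : 0 < η)
    (g : Finset ℕ → (n : ℕ) → E n) (hg : ∀ s, Le q M (g s)) (hB : 0 ≤ B)
    (hQ : ∀ x y : Finset ℕ, x.card = k → y.card = k → Disjoint x y → Phi q (g x - g y) ≤ Q)
    (hsmall : ∀ x y : Finset ℕ, x.card = k → y.card = k → (x \ y).card = (y \ x).card →
      ((x \ y).card : ℝ) * (2 * η) ≤ Q → Phi q (g x - g y) ≤ B)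
    (hC : ∀ x y : Finset ℕ, x.card = k → y.card = k → Disjoint x y → C₁ ≤ Phi r (g x - g y)) :
    C₁ ≤ 2 ^ (1 - r / q) * B ^ (r / q) + η ^ (r / q - 1) * Q := by
  have hr : 0 < r := hq.trans hqr
  have hρ : 1 < r / q := by rw [lt_div_iff₀ hq]; linarith
  have hρ0 : 0 < r / q := by positivity
  have hgr : ∀ s, Le r (M ^ (r / q)) (g s) := fun s => (hg s).rpow hq hqr.le
  set mv : Finset ℕ → ℕ → Finset ℕ := fun s t => insert t s with hmv
  set d : ℕ → ℝ := fun j => Tn mv (Psi mv g q j) (k - 1 - j) ∅ with hd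
  set e : ℕ → ℝ := fun j => Tn mv (Psi mv g r j) (k - 1 - j) ∅ with he
  have hPq := fun j x => Psi_range (mv := mv) hq hg j x
  have hPr := fun j x => Psi_range (mv := mv) hr hgr j x
  have hd0 : ∀ j, 0 ≤ d j := fun j => (Tn_range (hPq j) _ _).1
  have hed : ∀ j, e j ≤ d j ^ (r / q) := fun j =>
    Tn_rpow hρ0.le (hPq j) (hPr j) (fun x => Psi_rpow hq hqr.le hg j x) _ _
  -- the sum over a set of levels
  have hlow : ∀ (s : ℝ) (M : ℝ), 0 < s → (∀ x, Le s M (g x)) → ∀ H : Finset ℕ, H ⊆ Finset.range k →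
      R mv g s H k ∅ ∅ = 2 * ∑ j ∈ H, Tn mv (Psi mv g s j) (k - 1 - j) ∅ := by
    intro s M hs hg H hH
    rw [R, sub_self, Phi_zero hs, Sm_eq hs hg, ← Finset.sum_filter, Finset.filter_mem_eq_inter,
      Finset.inter_eq_right.2 hH]
    ring
  have hInv0 : Inv k k 0 ∅ ∅ := by simp [Inv]
  -- all levels, exponent `q`
  have hdQ : 2 * ∑ j ∈ Finset.range k, d j ≤ Q := by
    rw [hd, ← hlow q M hq hg _ (Finset.Subset.refl _)]
    refine (W_low hq hg _ k ∅ ∅).trans ?_
    have := W_mem (mv := mv) hq hg (Finset.range k) (Inv k) (Inv_false k) (Inv_true k)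
      (fun c => if c = k then Set.Iic Q else Set.univ)
      (fun c => by split_ifs; exacts [isClosed_Iic, isClosed_univ])
      (fun c x y h => by
        obtain ⟨h1, h2, h3, h4⟩ := h
        split_ifs with hc
        · refine hQ x y (by simpa using h1) (by simpa using h2) ?_
          rw [Finset.disjoint_iff_inter_eq_empty, ← Finset.card_eq_zero]
          have := Finset.card_sdiff_add_card_inter x y
          omega
        · trivial) k 0 ∅ ∅ hInv0
    simpa using this
  -- all levels, exponent `r`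
  have heC : C₁ ≤ 2 * ∑ j ∈ Finset.range k, e j := by
    rw [he, ← hlow r _ hr hgr _ (Finset.Subset.refl _), ← W_eq hr hgr k k le_rfl]
    have := W_mem (mv := mv) hr hgr (Finset.range k) (Inv k) (Inv_false k) (Inv_true k)
      (fun c => if c = k then Set.Ici C₁ else Set.univ)
      (fun c => by split_ifs; exacts [isClosed_Ici, isClosed_univ])
      (fun c x y h => by
        obtain ⟨h1, h2, h3, h4⟩ := h
        split_ifs with hc
        · refine hC x y (by simpa using h1) (by simpa using h2) ?_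
          rw [Finset.disjoint_iff_inter_eq_empty, ← Finset.card_eq_zero]
          have := Finset.card_sdiff_add_card_inter x y
          omega
        · trivial) k 0 ∅ ∅ hInv0
    simpa using this
  -- the large levels
  set H : Finset ℕ := (Finset.range k).filter fun j => η ≤ d j with hH
  have hHk : H ⊆ Finset.range k := Finset.filter_subset _ _
  have hHcard : (H.card : ℝ) * (2 * η) ≤ Q := by
    have h1 : (H.card : ℝ) * η ≤ ∑ j ∈ H, d j := by
      rw [← nsmul_eq_mul]
      exact Finset.card_nsmul_le_sum _ _ _ fun j hj => (Finset.mem_filter.1 hj).2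
    have h2 : ∑ j ∈ H, d j ≤ ∑ j ∈ Finset.range k, d j :=
      Finset.sum_le_sum_of_subset_of_nonneg hHk fun j _ _ => hd0 j
    linarith
  have hdH : 2 * ∑ j ∈ H, d j ≤ B := by
    rw [hd, ← hlow q M hq hg H hHk]
    refine (W_low hq hg _ k ∅ ∅).trans ?_
    have := W_mem (mv := mv) hq hg H (Inv k) (Inv_false k) (Inv_true k)
      (fun c => if c = H.card then Set.Iic B else Set.univ)
      (fun c => by split_ifs; exacts [isClosed_Iic, isClosed_univ])
      (fun c x y h => by
        obtain ⟨h1, h2, h3, h4⟩ := h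
        split_ifs with hc
        · refine hsmall x y (by simpa using h1) (by simpa using h2) (by rw [h3, h4]) ?_
          rw [h3, hc]
          exact hHcard
        · trivial) k 0 ∅ ∅ hInv0
    rw [Finset.inter_eq_left.2 hHk] at this
    simpa using this
  -- conclusion
  have hS0 : 0 ≤ ∑ j ∈ H, d j := Finset.sum_nonneg fun j _ => hd0 j
  have h1 : ∑ j ∈ H, d j ^ (r / q) ≤ (B / 2) ^ (r / q) := by
    refine (sum_rpow_le H d (fun j _ => hd0 j) hρ.le).trans ?_
    exact Real.rpow_le_rpow hS0 (by linarith) hρ0.le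
  have h2 : ∑ j ∈ Finset.range k \ H, d j ^ (r / q)
      ≤ η ^ (r / q - 1) * ∑ j ∈ Finset.range k, d j := by
    calc ∑ j ∈ Finset.range k \ H, d j ^ (r / q)
        ≤ ∑ j ∈ Finset.range k \ H, η ^ (r / q - 1) * d j := by
          apply Finset.sum_le_sum
          intro j hj
          rw [Finset.mem_sdiff] at hj
          have hlt : d j ≤ η := by
            by_contra hcon
            exact hj.2 (Finset.mem_filter.2 ⟨hj.1, by linarith⟩)
          have hρ' : 0 ≤ r / q - 1 := by linarith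
          calc d j ^ (r / q) = d j ^ ((r / q - 1) + 1) := by ring_nf
            _ = d j ^ (r / q - 1) * d j := by
                rw [Real.rpow_add_of_nonneg (hd0 j) hρ' zero_le_one, Real.rpow_one]
            _ ≤ η ^ (r / q - 1) * d j := by
                have := hd0 j
                gcongr
      _ = η ^ (r / q - 1) * ∑ j ∈ Finset.range k \ H, d j := by rw [Finset.mul_sum]
      _ ≤ η ^ (r / q - 1) * ∑ j ∈ Finset.range k, d j := by
          gcongr
          · exact fun j _ _ => hd0 j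
          · exact Finset.sdiff_subset
  have h3 : ∑ j ∈ Finset.range k, e j
      ≤ ∑ j ∈ Finset.range k \ H, d j ^ (r / q) + ∑ j ∈ H, d j ^ (r / q) := by
    rw [Finset.sum_sdiff hHk]
    exact Finset.sum_le_sum fun j _ => hed j
  have h4 : 2 * (B / 2) ^ (r / q) = 2 ^ (1 - r / q) * B ^ (r / q) := by
    rw [Real.div_rpow hB (by norm_num), Real.rpow_sub (by norm_num), Real.rpow_one]
    ring
  have h5 : 0 ≤ η ^ (r / q - 1) := by positivity
  have h6 : 2 * (η ^ (r / q - 1) * ∑ j ∈ Finset.range k, d j) ≤ η ^ (r / q - 1) * Q := by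
    calc 2 * (η ^ (r / q - 1) * ∑ j ∈ Finset.range k, d j)
        = η ^ (r / q - 1) * (2 * ∑ j ∈ Finset.range k, d j) := by ring
      _ ≤ η ^ (r / q - 1) * Q := by gcongr
  linarith

end TNB
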