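import Pool.Agent.Helper21.TNB.BL

/-!
# Iterated limits along a process

`X` is a set of states, `mv x t` is the state reached from `x` by choosing the number `t`, and
`f` maps states to vectors with coordinates in `E n`.
-/

open Filter Topology

namespace TNB

variable {X : Type*} {E : ℕ → Type*} [∀ n, NormedAddCommGroup (E n)]

/-- the coordinatewise iterated limit of `f` over `m` further moves -/
noncomputable def G (mv : X → ℕ → X) (f : X → (n : ℕ) → E n) : ℕ → X → (n : ℕ) → E n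
  | 0, x => f x
  | m + 1, x => vl fun t => G mv f m (mv x t)

/-- the mass which escapes in the first of `m + 1` moves -/
noncomputable def Psi (mv : X → ℕ → X) (f : X → (n : ℕ) → E n) (s : ℝ) (m : ℕ) (x : X) : ℝ :=
  L fun t => Phi s (G mv f m (mv x t) - G mv f (m + 1) x)

/-- iterated limit of a real function -/
noncomputable def Tn (mv : X → ℕ → X) (φ : X → ℝ) : ℕ → X → ℝ
  | 0, x => φ x
  | n + 1, x => L fun t => Tn mv φ n (mv x t)

/-- the total escaping mass in the moves at the levels in `H` -/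
noncomputable def Sm (mv : X → ℕ → X) (f : X → (n : ℕ) → E n) (s : ℝ) (H : Finset ℕ) :
    ℕ → X → ℝ
  | 0, _ => 0
  | m + 1, x => (if m ∈ H then Psi mv f s m x else 0) + L fun t => Sm mv f s H m (mv x t)

/-- the iterated limit of `Phi s (f x - f y)`, where the two states make the same move at the
levels outside `H` and independent moves at the levels in `H` -/
noncomputable def W (mv : X → ℕ → X) (f : X → (n : ℕ) → E n) (s : ℝ) (H : Finset ℕ) :
    ℕ → X → X → ℝ
  | 0, x, y => Phi s (f x - f y)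
  | m + 1, x, y => if m ∈ H then L fun t => L fun t' => W mv f s H m (mv x t) (mv y t')
      else L fun t => W mv f s H m (mv x t) (mv y t)

section bounds

variable {mv : X → ℕ → X} {f : X → (n : ℕ) → E n} {s M : ℝ} [∀ n, ProperSpace (E n)]

theorem G_Le (hs : 0 < s) (hf : ∀ x, Le s M (f x)) : ∀ m x, Le s M (G mv f m x)
  | 0, x => hf x
  | m + 1, x => vl_Le hs fun t => G_Le hs hf m (mv x t)

omit [∀ n, ProperSpace (E n)] in
theorem sub_Le (hs : 0 < s) {v w : (n : ℕ) → E n} (hv : Le s M v) (hw : Le s M w) :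
    Le s (2 ^ s * (M + M)) (v - w) := hv.sub hs hw

theorem Psi_range (hs : 0 < s) (hf : ∀ x, Le s M (f x)) (m : ℕ) (x : X) :
    0 ≤ Psi mv f s m x ∧ Psi mv f s m x ≤ 2 ^ s * (M + M) :=
  L_range fun _ => ⟨Phi_nonneg _ _, (sub_Le hs (G_Le hs hf m _) (G_Le hs hf (m + 1) x)).2⟩

theorem Tn_range {φ : X → ℝ} {B : ℝ} (hφ : ∀ x, 0 ≤ φ x ∧ φ x ≤ B) :
    ∀ n x, 0 ≤ Tn mv φ n x ∧ Tn mv φ n x ≤ B
  | 0, x => hφ x
  | n + 1, x => L_range fun t => Tn_range hφ n (mv x t)

theorem Sm_range (hs : 0 < s) (hf : ∀ x, Le s M (f x)) (H : Finset ℕ) : ∀ m x,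
    0 ≤ Sm mv f s H m x ∧ Sm mv f s H m x ≤ m * (2 ^ s * (M + M))
  | 0, x => by simp [Sm]
  | m + 1, x => by
    have h1 := Psi_range (mv := mv) hs hf m x
    have h2 := L_range (h := fun t => Sm mv f s H m (mv x t))
      (fun t => Sm_range hs hf H m (mv x t))
    rw [Sm]
    push_cast
    split_ifs
    · constructor <;> linarith
    · constructor <;> linarith

omit [∀ n, ProperSpace (E n)] in
theorem W_range (hs : 0 < s) (hf : ∀ x, Le s M (f x)) (H : Finset ℕ) : ∀ m x y,
    0 ≤ W mv f s H m x y ∧ W mv f s H m x y ≤ 2 ^ s * (M + M)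
  | 0, x, y => ⟨Phi_nonneg _ _, (sub_Le hs (hf x) (hf y)).2⟩
  | m + 1, x, y => by
    rw [W]
    split_ifs
    · exact L_range fun t => L_range fun t' => W_range hs hf H m (mv x t) (mv y t')
    · exact L_range fun t => W_range hs hf H m (mv x t) (mv y t)

/-- the Brezis-Lieb lemma in the form used below -/
theorem bl_left (hs : 0 < s) {v : ℕ → (n : ℕ) → E n} (hv : ∀ t, Le s M (v t))
    {c : (n : ℕ) → E n} (hc : Le s M c) :
    Tendsto (fun t => Phi s (v t - c)) U
      (𝓝 (Phi s (vl v - c) + L fun t => Phi s (v t - vl v))) := by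
  have h1 := vl_Le hs hv
  have h2 := brezis_lieb hs (w := vl v - c) (v := fun t => v t - vl v) (h1.sub hs hc)
    (fun t => (hv t).sub hs h1) (by
      intro n
      have := (vl_tendsto hs hv n).sub (tendsto_const_nhds (x := vl v n))
      simpa using this)
  have h3 : Tendsto (fun t => Phi s (v t - vl v)) U (𝓝 (L fun t => Phi s (v t - vl v))) :=
    L_tendsto (Phi_bd fun t => (hv t).sub hs h1)
  have h4 := (h2.add h3).add (tendsto_const_nhds (x := Phi s (vl v - c)))
  have e1 : (0 : ℝ) + (L fun t => Phi s (v t - vl v)) + Phi s (vl v - c)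
      = Phi s (vl v - c) + L fun t => Phi s (v t - vl v) := by ring
  rw [e1] at h4
  refine h4.congr fun t => ?_
  have e2 : (vl v - c) + (v t - vl v) = v t - c := by abel
  rw [e2]
  ring

omit [∀ n, ProperSpace (E n)] in
theorem Phi_sub_comm (s : ℝ) (v w : (n : ℕ) → E n) : Phi s (v - w) = Phi s (w - v) := by
  rw [← Phi_neg, neg_sub]

theorem bl_right (hs : 0 < s) {v : ℕ → (n : ℕ) → E n} (hv : ∀ t, Le s M (v t))
    {c : (n : ℕ) → E n} (hc : Le s M c) :
    Tendsto (fun t => Phi s (c - v t)) U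
      (𝓝 (Phi s (c - vl v) + L fun t => Phi s (v t - vl v))) := by
  have := bl_left hs hv hc
  rw [Phi_sub_comm s (vl v) c] at this
  exact this.congr fun t => Phi_sub_comm s _ _

/-- the comparison quantity -/
noncomputable def R (mv : X → ℕ → X) (f : X → (n : ℕ) → E n) (s : ℝ) (H : Finset ℕ) (m : ℕ)
    (x y : X) : ℝ :=
  Phi s (G mv f m x - G mv f m y) + Sm mv f s H m x + Sm mv f s H m y

theorem R_range (hs : 0 < s) (hf : ∀ x, Le s M (f x)) (H : Finset ℕ) (m : ℕ) (x y : X) :
    0 ≤ R mv f s H m x y ∧ R mv f s H m x y ≤ (2 * m + 1) * (2 ^ s * (M + M)) := by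
  have h1 := Sm_range (mv := mv) hs hf H m x
  have h2 := Sm_range (mv := mv) hs hf H m y
  have h3 : 0 ≤ Phi s (G mv f m x - G mv f m y) := Phi_nonneg _ _
  have h4 := (sub_Le hs (G_Le (mv := mv) hs hf m x) (G_Le (mv := mv) hs hf m y)).2
  unfold R
  constructor
  · linarith
  · nlinarith

theorem Bd_Sm (hs : 0 < s) (hf : ∀ x, Le s M (f x)) (H : Finset ℕ) (m : ℕ) (x : X) :
    Bd fun t => Sm mv f s H m (mv x t) :=
  Bd.of_mem fun t => Sm_range hs hf H m (mv x t)

theorem R_true (hs : 0 < s) (hf : ∀ x, Le s M (f x)) {H : Finset ℕ} {m : ℕ} (hm : m ∈ H)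
    (x y : X) : (L fun t => L fun t' => R mv f s H m (mv x t) (mv y t'))
      = R mv f s H (m + 1) x y := by
  have hin : ∀ t, (L fun t' => R mv f s H m (mv x t) (mv y t'))
      = Phi s (G mv f m (mv x t) - G mv f (m + 1) y) + Psi mv f s m y
        + Sm mv f s H m (mv x t) + L fun t' => Sm mv f s H m (mv y t') := by
    intro t
    apply L_eq
    have h1 := bl_right hs (v := fun t' => G mv f m (mv y t')) (c := G mv f m (mv x t))
      (fun t' => G_Le hs hf m _) (G_Le hs hf m _)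
    exact (h1.add tendsto_const_nhds).add (L_tendsto (Bd_Sm hs hf H m y))
  simp_rw [hin]
  apply L_eq
  have h2 := bl_left hs (v := fun t => G mv f m (mv x t)) (c := G mv f (m + 1) y)
    (fun t' => G_Le hs hf m _) (G_Le hs hf (m + 1) _)
  have h3 := ((h2.add (tendsto_const_nhds (x := Psi mv f s m y))).add
    (L_tendsto (Bd_Sm (mv := mv) hs hf H m x))).add
    (tendsto_const_nhds (x := L fun t' => Sm mv f s H m (mv y t')))
  refine h3.trans (le_of_eq ?_)
  congr 1
  have e1 : (vl fun t => G mv f m (mv x t)) = G mv f (m + 1) x := rfl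
  rw [e1, R, Sm, Sm, if_pos hm, if_pos hm]
  have e2 : (L fun t => Phi s (G mv f m (mv x t) - G mv f (m + 1) x)) = Psi mv f s m x := rfl
  rw [e2]
  ring

theorem R_false (hs : 0 < s) (hf : ∀ x, Le s M (f x)) {H : Finset ℕ} {m : ℕ} (hm : m ∉ H)
    (x y : X) : R mv f s H (m + 1) x y ≤ L fun t => R mv f s H m (mv x t) (mv y t) := by
  have hle : ∀ t, Le s (2 ^ s * (M + M)) (G mv f m (mv x t) - G mv f m (mv y t)) :=
    fun t => (G_Le hs hf m _).sub hs (G_Le hs hf m _)
  have h1 : Phi s (G mv f (m + 1) x - G mv f (m + 1) y)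
      ≤ L fun t => Phi s (G mv f m (mv x t) - G mv f m (mv y t)) :=
    fatou hs hle fun n =>
      (vl_tendsto hs (fun t => G_Le hs hf m (mv x t)) n).sub
        (vl_tendsto hs (fun t => G_Le hs hf m (mv y t)) n)
  have h2 : (L fun t => R mv f s H m (mv x t) (mv y t))
      = (L fun t => Phi s (G mv f m (mv x t) - G mv f m (mv y t)))
        + (L fun t => Sm mv f s H m (mv x t)) + L fun t => Sm mv f s H m (mv y t) :=
    L_eq (((L_tendsto (Phi_bd hle)).add (L_tendsto (Bd_Sm hs hf H m x))).add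
      (L_tendsto (Bd_Sm hs hf H m y)))
  rw [h2, R, Sm, Sm, if_neg hm, if_neg hm]
  linarith

theorem W_low (hs : 0 < s) (hf : ∀ x, Le s M (f x)) (H : Finset ℕ) : ∀ m x y,
    R mv f s H m x y ≤ W mv f s H m x y
  | 0, x, y => by simp [R, W, Sm, G]
  | m + 1, x, y => by
    have hW := fun m x y => W_range (mv := mv) hs hf H m x y
    have hR := fun m x y => R_range (mv := mv) hs hf H m x y
    rw [W]
    split_ifs with hm
    · rw [← R_true hs hf hm]
      refine L_mono (Bd.of_mem fun t => L_range fun t' => hR m _ _)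
        (Bd.of_mem fun t => L_range fun t' => hW m _ _) fun t => ?_
      exact L_mono (Bd.of_mem fun t => hR m _ _) (Bd.of_mem fun t => hW m _ _)
        fun t' => W_low hs hf H m _ _
    · refine (R_false hs hf hm x y).trans ?_
      exact L_mono (Bd.of_mem fun t => hR m _ _) (Bd.of_mem fun t => hW m _ _)
        fun t => W_low hs hf H m _ _

theorem W_eq (hs : 0 < s) (hf : ∀ x, Le s M (f x)) (k : ℕ) : ∀ m, m ≤ k → ∀ x y,
    W mv f s (Finset.range k) m x y = R mv f s (Finset.range k) m x y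
  | 0, _, x, y => by simp [R, W, Sm, G]
  | m + 1, hmk, x, y => by
    have hm : m ∈ Finset.range k := Finset.mem_range.2 (by omega)
    rw [W, if_pos hm, ← R_true hs hf hm]
    congr 1
    funext t
    congr 1
    funext t'
    exact W_eq hs hf k m (by omega) _ _

theorem Sm_eq (hs : 0 < s) (hf : ∀ x, Le s M (f x)) (H : Finset ℕ) : ∀ k x,
    Sm mv f s H k x
      = ∑ j ∈ Finset.range k, if j ∈ H then Tn mv (Psi mv f s j) (k - 1 - j) x else 0
  | 0, x => by simp [Sm]
  | k + 1, x => by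
    rw [Sm, Finset.sum_range_succ, add_comm]
    congr 1
    · apply L_eq
      simp_rw [Sm_eq hs hf H k]
      apply tendsto_finsetSum
      intro j hj
      split_ifs with hjH
      · have hj' := Finset.mem_range.1 hj
        have e1 : k + 1 - 1 - j = (k - 1 - j) + 1 := by omega
        rw [e1, Tn]
        exact L_tendsto (Bd.of_mem fun t => Tn_range (fun x => Psi_range hs hf j x) _ _)
      · exact tendsto_const_nhds
    · have e1 : k + 1 - 1 - k = 0 := by omega
      rw [e1]
      simp [Tn]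

omit [∀ n, ProperSpace (E n)] in
/-- the iterated limit stays in a closed set if it does so at the end -/
theorem W_mem (hs : 0 < s) (hf : ∀ x, Le s M (f x)) (H : Finset ℕ) (Inv : ℕ → ℕ → X → X → Prop)
    (h1 : ∀ m c x y, Inv (m + 1) c x y → ∀ᶠ t in U, Inv m c (mv x t) (mv y t))
    (h2 : ∀ m c x y, Inv (m + 1) c x y → ∀ᶠ t in U, ∀ᶠ t' in U, Inv m (c + 1) (mv x t) (mv y t'))
    (A : ℕ → Set ℝ) (hA : ∀ c, IsClosed (A c))
    (h0 : ∀ c x y, Inv 0 c x y → Phi s (f x - f y) ∈ A c) :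
    ∀ m c x y, Inv m c x y → W mv f s H m x y ∈ A (c + (H ∩ Finset.range m).card)
  | 0, c, x, y, h => by simpa [W] using h0 c x y h
  | m + 1, c, x, y, h => by
    have hW := fun m x y => W_range (mv := mv) hs hf H m x y
    have hcard : (H ∩ Finset.range (m + 1)).card
        = (H ∩ Finset.range m).card + if m ∈ H then 1 else 0 := by
      rw [Finset.range_add_one]
      split_ifs with hm
      · rw [Finset.inter_insert_of_mem hm, Finset.card_insert_of_notMem]
        simp
      · rw [Finset.inter_insert_of_notMem hm, add_zero]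
    rw [W]
    split_ifs with hm
    · rw [hcard, if_pos hm]
      refine L_mem (Bd.of_mem fun t => L_range fun t' => hW m _ _) (hA _) ?_
      filter_upwards [h2 m c x y h] with t ht
      refine L_mem (Bd.of_mem fun t => hW m _ _) (hA _) ?_
      filter_upwards [ht] with t' ht'
      have := W_mem hs hf H Inv h1 h2 A hA h0 m (c + 1) _ _ ht'
      have e : c + 1 + (H ∩ Finset.range m).card = c + ((H ∩ Finset.range m).card + 1) := by
        omega
      rwa [e] at this
    · rw [hcard, if_neg hm, add_zero]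
      refine L_mem (Bd.of_mem fun t => hW m _ _) (hA _) ?_
      filter_upwards [h1 m c x y h] with t ht
      exact W_mem hs hf H Inv h1 h2 A hA h0 m c _ _ ht

end bounds

/-! ### comparison of two exponents -/

theorem Phi_rpow {p q : ℝ} (hp : 0 < p) (hpq : p ≤ q) {v : (n : ℕ) → E n}
    (hv : Summable fun n => ‖v n‖ ^ p) :
    (Summable fun n => ‖v n‖ ^ q) ∧ Phi q v ≤ Phi p v ^ (q / p) := by
  have hP := Phi_nonneg p v
  have h1 : ∀ n, ‖v n‖ ^ q ≤ Phi p v ^ (q / p - 1) * ‖v n‖ ^ p := by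
    intro n
    have h2 : ‖v n‖ ^ p ≤ Phi p v := hv.le_tsum n fun _ _ => by positivity
    have h3 : 0 ≤ ‖v n‖ ^ p := by positivity
    have h5 : 0 ≤ q / p - 1 := by
      rw [sub_nonneg, le_div_iff₀ hp]
      linarith
    calc ‖v n‖ ^ q = (‖v n‖ ^ p) ^ (q / p) := by
          rw [← Real.rpow_mul (norm_nonneg _), mul_div_cancel₀ _ hp.ne']
      _ = (‖v n‖ ^ p) ^ ((q / p - 1) + 1) := by ring_nf
      _ = (‖v n‖ ^ p) ^ (q / p - 1) * (‖v n‖ ^ p) := by
          rw [Real.rpow_add_of_nonneg h3 h5 zero_le_one, Real.rpow_one]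
      _ ≤ Phi p v ^ (q / p - 1) * ‖v n‖ ^ p := by
          gcongr
  have h4 : Summable fun n => ‖v n‖ ^ q :=
    Summable.of_nonneg_of_le (fun n => by positivity) h1 (hv.mul_left _)
  refine ⟨h4, ?_⟩
  calc Phi q v ≤ ∑' n, Phi p v ^ (q / p - 1) * ‖v n‖ ^ p :=
        h4.tsum_le_tsum h1 (hv.mul_left _)
    _ = Phi p v ^ (q / p - 1) * Phi p v := by rw [tsum_mul_left]; rfl
    _ = Phi p v ^ (q / p) := by
        have h5 : 0 ≤ q / p - 1 := by
          rw [sub_nonneg, le_div_iff₀ hp]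
          linarith
        nth_rw 2 [← Real.rpow_one (Phi p v)]
        rw [← Real.rpow_add_of_nonneg hP h5 zero_le_one]
        ring_nf

theorem Le.rpow {p q M : ℝ} (hp : 0 < p) (hpq : p ≤ q) {v : (n : ℕ) → E n} (hv : Le p M v) :
    Le q (M ^ (q / p)) v := by
  obtain ⟨h1, h2⟩ := Phi_rpow hp hpq hv.1
  refine ⟨h1, h2.trans ?_⟩
  exact Real.rpow_le_rpow (Phi_nonneg _ _) hv.2 (by have := hp.trans_le hpq; positivity)

section compare

variable {mv : X → ℕ → X} {f : X → (n : ℕ) → E n} {p q M : ℝ} [∀ n, ProperSpace (E n)]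

theorem Psi_rpow (hp : 0 < p) (hpq : p ≤ q) (hf : ∀ x, Le p M (f x)) (m : ℕ) (x : X) :
    Psi mv f q m x ≤ Psi mv f p m x ^ (q / p) := by
  have hq : 0 < q := hp.trans_le hpq
  have h1 : ∀ t, Le p (2 ^ p * (M + M)) (G mv f m (mv x t) - G mv f (m + 1) x) :=
    fun t => (G_Le hp hf m _).sub hp (G_Le hp hf (m + 1) _)
  have h2 : ∀ t, Phi q (G mv f m (mv x t) - G mv f (m + 1) x)
      ≤ Phi p (G mv f m (mv x t) - G mv f (m + 1) x) ^ (q / p) :=
    fun t => (Phi_rpow hp hpq (h1 t).1).2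
  rw [Psi, Psi, ← L_rpow (Phi_bd h1) (by positivity)]
  refine le_of_tendsto_of_tendsto' (L_tendsto (Phi_bd fun t => (h1 t).rpow hp hpq)) ?_ h2
  rw [L_rpow (Phi_bd h1) (by positivity)]
  exact (L_tendsto (Phi_bd h1)).rpow_const (Or.inr (by positivity))

theorem Tn_rpow {φ ψ : X → ℝ} {B C r : ℝ} (hr : 0 ≤ r) (hφ : ∀ x, 0 ≤ φ x ∧ φ x ≤ B)
    (hψ : ∀ x, 0 ≤ ψ x ∧ ψ x ≤ C) (h : ∀ x, ψ x ≤ φ x ^ r) :
    ∀ n x, Tn mv ψ n x ≤ Tn mv φ n x ^ r
  | 0, x => h x
  | n + 1, x => by
    have h1 : Bd fun t => Tn mv φ n (mv x t) := Bd.of_mem fun t => Tn_range hφ n (mv x t)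
    have h2 : Bd fun t => Tn mv ψ n (mv x t) := Bd.of_mem fun t => Tn_range hψ n (mv x t)
    rw [Tn, Tn]
    exact le_of_tendsto_of_tendsto' (L_tendsto h2) ((L_tendsto h1).rpow_const (Or.inr hr))
      fun t => Tn_rpow hr hφ hψ h n (mv x t)

end compare

end TNB
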